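import Mathlib

set_option autoImplicit false

namespace Pool.Agent.Y80.Tor

variable {A : Type*} [NonUnitalNonAssocRing A]

/-- associator -/
def as (a b c : A) : A := (a * b) * c - a * (b * c)

/-- Jordan product -/
def s (a b : A) : A := a * b + b * a

/-- alternative laws -/
structure IsAlt (A : Type*) [NonUnitalNonAssocRing A] : Prop where
  left : ∀ a b : A, (a * a) * b = a * (a * b)
  right : ∀ a b : A, (b * a) * a = b * (a * a)

theorem s_comm (a b : A) : s a b = s b a := by simp only [s]; abel

theorem as_add1 (a a' b c : A) : as (a + a') b c = as a b c + as a' b c := by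
  simp only [as, add_mul]; abel

theorem as_add2 (a b b' c : A) : as a (b + b') c = as a b c + as a b' c := by
  simp only [as, add_mul, mul_add]; abel

theorem as_add3 (a b c c' : A) : as a b (c + c') = as a b c + as a b c' := by
  simp only [as, mul_add]; abel

/-- the Teichmueller identity -/
theorem teich (a b c d : A) : as (a * b) c d - as a (b * c) d + as a b (c * d) =
    a * as b c d + as a b c * d := by
  simp only [as, mul_sub, sub_mul]; abel

variable (h : IsAlt A)
include h

theorem as_self1 (a b : A) : as a a b = 0 := by simp [as, h.left]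

theorem as_self2 (a b : A) : as b a a = 0 := by simp [as, h.right]

theorem as_12 (a b c : A) : as a b c = - as b a c := by
  have := as_self1 h (a + b) c
  rw [as_add1, as_add2, as_add2, as_self1 h, as_self1 h, zero_add, add_zero] at this
  exact eq_neg_of_add_eq_zero_left this

theorem as_23 (a b c : A) : as a b c = - as a c b := by
  have := as_self2 h (b + c) a
  rw [as_add2, as_add3, as_add3, as_self2 h, as_self2 h, zero_add, add_zero] at this
  exact eq_neg_of_add_eq_zero_left this

theorem as_cyc (a b c : A) : as a b c = as b c a := by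
  rw [as_12 h a b c, as_23 h b a c, neg_neg]

theorem as_cyc' (a b c : A) : as a b c = as c a b := by
  rw [as_cyc h a b c, as_cyc h b c a]

theorem as_13 (a b c : A) : as a b c = - as c b a := by
  rw [as_cyc h a b c, as_12 h b c a]

omit h in
/-- Kleinfeld function -/
def kf (a b c d : A) : A := as (a * b) c d - b * as a c d - as b c d * a

theorem gg (a b c d : A) : as (a * b) c d - as (b * c) d a + as (c * d) a b =
    a * as b c d + as a b c * d := by
  rw [← teich, as_12 h a (b * c) d, as_23 h (b * c) a d, neg_neg, as_cyc' h a b (c * d)]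

theorem kf_shift (a b c d : A) : kf a b c d = - kf d a b c := by
  have e1 := gg h a b c d
  have e2 := gg h b c d a
  have e3 : as c d a = as a c d := as_cyc' h c d a
  have e4 : as d b c = as b c d := as_cyc h d b c
  rw [eq_neg_iff_add_eq_zero]
  have e5 : as (a * b) c d + as (d * a) b c =
      (a * as b c d + as a b c * d) + (b * as c d a + as b c d * a) := by
    rw [← e1, ← e2]; abel
  have : kf a b c d + kf d a b c = (as (a * b) c d + as (d * a) b c) - b * as a c d
      - as b c d * a - a * as d b c - as a b c * d := by
    simp only [kf]; abel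
  rw [this, e5, e3, e4]
  abel

theorem kf_self34 (a b c : A) : kf a b c c = 0 := by
  simp [kf, as_self2 h]

theorem kf_34 (a b c d : A) : kf a b c d = - kf a b d c := by
  simp only [kf]
  rw [as_23 h (a * b) c d, as_23 h a c d, as_23 h b c d]
  simp only [mul_neg, neg_mul]
  abel

theorem kf_self12 (a c d : A) : kf a a c d = 0 := by
  rw [kf_shift h, kf_shift h, neg_neg, kf_self34 h]

theorem as_sq (a b c : A) : as (a * a) b c = a * as a b c + as a b c * a := by
  have := kf_self12 h a b c
  rw [kf, sub_sub, sub_eq_zero] at this
  exact this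

theorem as_ab (a b : A) : as (a * b) b a = 0 := by
  have h1 : kf a b b a = 0 := by
    rw [kf_shift h, kf_self34 h, neg_zero]
  have h2 : as a b a = 0 := by rw [as_23 h, as_self1 h, neg_zero]
  rw [kf, h2, as_self1 h] at h1
  simpa using h1

theorem as_ba (a b : A) : as (b * a) b a = 0 := by
  have h1 : kf b a b a = 0 := by
    rw [kf_34 h, kf_shift h, kf_self34 h, neg_zero, neg_zero]
  have h2 : as a b a = 0 := by rw [as_23 h, as_self1 h, neg_zero]
  rw [kf, h2, as_self1 h] at h1
  simpa using h1

theorem artin (a b : A) : as (a * a) (s a b) (b * b) = 0 := by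
  have h1 : as (s a b) b a = 0 := by
    rw [s, as_add1, as_ab h, as_ba h, add_zero]
  have h2 : as b a (s a b) = 0 := by rw [as_cyc' h, h1]
  have h3 : as (b * b) a (s a b) = 0 := by
    rw [as_sq h, h2, mul_zero, zero_mul, add_zero]
  have h4 : as a (s a b) (b * b) = 0 := by rw [as_cyc' h, h3]
  rw [as_sq h, h4, mul_zero, zero_mul, add_zero]

omit h in
theorem polar3 {M : Type*} [AddCommGroup M] (F : A → A → A → M)
    (h1 : ∀ a a' b c, F (a + a') b c = F a b c + F a' b c)
    (h2 : ∀ a b b' c, F a (b + b') c = F a b c + F a b' c)
    (h3 : ∀ a b c c', F a b (c + c') = F a b c + F a b c')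
    (h0 : ∀ a, F a a a = 0) (x y z : A) :
    F x y z + F x z y + F y x z + F y z x + F z x y + F z y x = 0 := by
  have e : F x y z + F x z y + F y x z + F y z x + F z x y + F z y x =
      F (x + y + z) (x + y + z) (x + y + z) - F (x + y) (x + y) (x + y)
      - F (y + z) (y + z) (y + z) - F (x + z) (x + z) (x + z) + F x x x + F y y y + F z z z := by
    simp only [h1, h2, h3]
    abel
  rw [e]
  simp only [h0]
  abel

omit h in
/-- the form to be polarised -/
def T (a a' a'' b b' b'' : A) : A := as (a * a') (s a'' b) (b' * b'')

theorem T_polar1 (x y z b : A) : T x y z b b b + T x z y b b b + T y x z b b b + T y z x b b b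
    + T z x y b b b + T z y x b b b = 0 := by
  apply polar3 (fun a a' a'' => T a a' a'' b b b)
  · intro a a' c d; simp only [T, add_mul, as_add1]
  · intro a a' c d; simp only [T, mul_add, as_add1]
  · intro a a' c d
    have : s (c + d) b = s c b + s d b := by simp only [s, add_mul, mul_add]; abel
    simp only [T, this, as_add2]
  · intro a; exact artin h a b

omit h in
def T6 (x y z b b' b'' : A) : A := T x y z b b' b'' + T x z y b b' b'' + T y x z b b' b'' +
  T y z x b b' b'' + T z x y b b' b'' + T z y x b b' b''

theorem T_polar2 (x y z u v w : A) : T6 x y z u v w + T6 x y z u w v + T6 x y z v u w +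
    T6 x y z v w u + T6 x y z w u v + T6 x y z w v u = 0 := by
  apply polar3 (fun b b' b'' => T6 x y z b b' b'')
  · intro a a' c d
    have : ∀ e : A, s e (a + a') = s e a + s e a' := fun e => by
      simp only [s, add_mul, mul_add]; abel
    simp only [T6, T, this, as_add2]
    abel
  · intro a b c d
    simp only [T6, T, add_mul, as_add3]
    abel
  · intro a b c d
    simp only [T6, T, mul_add, as_add3]
    abel
  · intro b; exact T_polar1 h x y z b

/-- the nine term identity -/
theorem nine (x y z u v w : A) :
    as (s y z) (s x u) (s v w) + as (s y z) (s x v) (s u w) + as (s y z) (s x w) (s u v) +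
    as (s x z) (s y u) (s v w) + as (s x z) (s y v) (s u w) + as (s x z) (s y w) (s u v) +
    as (s x y) (s z u) (s v w) + as (s x y) (s z v) (s u w) + as (s x y) (s z w) (s u v) = 0 := by
  have := T_polar2 h x y z u v w
  rw [← this]
  have e : ∀ a b c d e : A, as (s a b) c (s d e) =
      as (a * b) c (d * e) + as (a * b) c (e * d) + as (b * a) c (d * e) +
      as (b * a) c (e * d) := by
    intro a b c d e
    simp only [s, as_add1, as_add3]
    abel
  simp only [T6, T]
  rw [e y z, e y z, e y z, e x z, e x z, e x z, e x y, e x y, e x y]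
  abel

end Pool.Agent.Y80.Tor
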