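import Mathlib

set_option autoImplicit false

namespace Pool.Agent.Y80.Tor

/-- The alternative congruence on a free nonassociative ring: the ring congruence generated by
`(a a) b ~ a (a b)` and `(b a) a ~ b (a a)`, for all elements `a`, `b`. -/
noncomputable def altCon (X : Type*) : RingCon (FreeNonUnitalNonAssocAlgebra ℤ X) :=
  ringConGen fun u v => ∃ a b : FreeNonUnitalNonAssocAlgebra ℤ X,
    (u = (a * a) * b ∧ v = a * (a * b)) ∨ (u = (b * a) * a ∧ v = b * (a * a))

/-- The free alternative ring on the set `X`. -/
abbrev FreeAltRing (X : Type*) := (altCon X).Quotient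

end Pool.Agent.Y80.Tor
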