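import Pool.Agent.Y80.Tor.Witness
import Pool.Agent.Y80.Tor.Defs

set_option autoImplicit false
set_option linter.style.longLine false

namespace Pool.Agent.Y80.Tor

section identity

variable {A : Type*} [NonUnitalNonAssocRing A]

/-- the torsion element -/
def tt (x : ℕ → A) : A :=
  as (s (x 0) (x 4)) (s (x 1) (x 2)) (s (x 3) (x 5)) +
    as (s (x 0) (x 5)) (s (x 1) (x 2)) (s (x 3) (x 4)) +
    as (s (x 0) (x 5)) (s (x 1) (x 3)) (s (x 2) (x 4)) -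
    (as (s (x 0) (x 1)) (s (x 2) (x 3)) (s (x 4) (x 5)) +
      as (s (x 0) (x 1)) (s (x 2) (x 4)) (s (x 3) (x 5)) +
      as (s (x 0) (x 2)) (s (x 1) (x 3)) (s (x 4) (x 5)) +
      as (s (x 0) (x 2)) (s (x 1) (x 5)) (s (x 3) (x 4)) +
      as (s (x 0) (x 4)) (s (x 1) (x 5)) (s (x 2) (x 3)))

variable (h : IsAlt A) (x : ℕ → A)
include h

theorem R012 : - as (s (x 0) (x 3)) (s (x 1) (x 2)) (s (x 4) (x 5)) - as (s (x 0) (x 4)) (s (x 1) (x 2)) (s (x 3) (x 5)) - as (s (x 0) (x 5)) (s (x 1) (x 2)) (s (x 3) (x 4)) + as (s (x 0) (x 2)) (s (x 1) (x 3)) (s (x 4) (x 5)) + as (s (x 0) (x 2)) (s (x 1) (x 4)) (s (x 3) (x 5)) + as (s (x 0) (x 2)) (s (x 1) (x 5)) (s (x 3) (x 4)) + as (s (x 0) (x 1)) (s (x 2) (x 3)) (s (x 4) (x 5)) + as (s (x 0) (x 1)) (s (x 2) (x 4)) (s (x 3) (x 5)) + as (s (x 0) (x 1)) (s (x 2) (x 5)) (s (x 3) (x 4))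 = 0 := by
  have n := nine h (x 0) (x 1) (x 2) (x 3) (x 4) (x 5)
  have e0 : as (s (x 1) (x 2)) (s (x 0) (x 3)) (s (x 4) (x 5)) = - as (s (x 0) (x 3)) (s (x 1) (x 2)) (s (x 4) (x 5)) := by rw [as_12 h (s (x 1) (x 2)) (s (x 0) (x 3)) (s (x 4) (x 5))]
  rw [e0] at n
  have e1 : as (s (x 1) (x 2)) (s (x 0) (x 4)) (s (x 3) (x 5)) = - as (s (x 0) (x 4)) (s (x 1) (x 2)) (s (x 3) (x 5)) := by rw [as_12 h (s (x 1) (x 2)) (s (x 0) (x 4)) (s (x 3) (x 5))]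
  rw [e1] at n
  have e2 : as (s (x 1) (x 2)) (s (x 0) (x 5)) (s (x 3) (x 4)) = - as (s (x 0) (x 5)) (s (x 1) (x 2)) (s (x 3) (x 4)) := by rw [as_12 h (s (x 1) (x 2)) (s (x 0) (x 5)) (s (x 3) (x 4))]
  rw [e2] at n
  rw [← n]; abel

theorem R015 : - as (s (x 0) (x 2)) (s (x 1) (x 5)) (s (x 3) (x 4)) - as (s (x 0) (x 3)) (s (x 1) (x 5)) (s (x 2) (x 4)) - as (s (x 0) (x 4)) (s (x 1) (x 5)) (s (x 2) (x 3)) + as (s (x 0) (x 5)) (s (x 1) (x 2)) (s (x 3) (x 4)) + as (s (x 0) (x 5)) (s (x 1) (x 3)) (s (x 2) (x 4)) + as (s (x 0) (x 5)) (s (x 1) (x 4)) (s (x 2) (x 3)) + as (s (x 0) (x 1)) (s (x 2) (x 5)) (s (x 3) (x 4)) - as (s (x 0) (x 1)) (s (x 2) (x 4)) (s (x 3) (x 5)) - as (s (x 0) (x 1)) (s (x 2) (x 3)) (s (x 4) (x 5)) = 0 := by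
  have n := nine h (x 0) (x 1) (x 5) (x 2) (x 3) (x 4)
  have e0 : as (s (x 1) (x 5)) (s (x 0) (x 2)) (s (x 3) (x 4)) = - as (s (x 0) (x 2)) (s (x 1) (x 5)) (s (x 3) (x 4)) := by rw [as_12 h (s (x 1) (x 5)) (s (x 0) (x 2)) (s (x 3) (x 4))]
  rw [e0] at n
  have e1 : as (s (x 1) (x 5)) (s (x 0) (x 3)) (s (x 2) (x 4)) = - as (s (x 0) (x 3)) (s (x 1) (x 5)) (s (x 2) (x 4)) := by rw [as_12 h (s (x 1) (x 5)) (s (x 0) (x 3)) (s (x 2) (x 4))]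
  rw [e1] at n
  have e2 : as (s (x 1) (x 5)) (s (x 0) (x 4)) (s (x 2) (x 3)) = - as (s (x 0) (x 4)) (s (x 1) (x 5)) (s (x 2) (x 3)) := by rw [as_12 h (s (x 1) (x 5)) (s (x 0) (x 4)) (s (x 2) (x 3))]
  rw [e2] at n
  have e6 : as (s (x 0) (x 1)) (s (x 5) (x 2)) (s (x 3) (x 4)) = as (s (x 0) (x 1)) (s (x 2) (x 5)) (s (x 3) (x 4)) := by rw [s_comm (x 5) (x 2)]
  rw [e6] at n
  have e7 : as (s (x 0) (x 1)) (s (x 5) (x 3)) (s (x 2) (x 4)) = - as (s (x 0) (x 1)) (s (x 2) (x 4)) (s (x 3) (x 5)) := by rw [s_comm (x 5) (x 3), as_23 h (s (x 0) (x 1)) (s (x 3) (x 5)) (s (x 2) (x 4))]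
  rw [e7] at n
  have e8 : as (s (x 0) (x 1)) (s (x 5) (x 4)) (s (x 2) (x 3)) = - as (s (x 0) (x 1)) (s (x 2) (x 3)) (s (x 4) (x 5)) := by rw [s_comm (x 5) (x 4), as_23 h (s (x 0) (x 1)) (s (x 4) (x 5)) (s (x 2) (x 3))]
  rw [e8] at n
  rw [← n]; abel

theorem R024 : - as (s (x 0) (x 1)) (s (x 2) (x 4)) (s (x 3) (x 5)) + as (s (x 0) (x 3)) (s (x 1) (x 5)) (s (x 2) (x 4)) + as (s (x 0) (x 5)) (s (x 1) (x 3)) (s (x 2) (x 4)) + as (s (x 0) (x 4)) (s (x 1) (x 2)) (s (x 3) (x 5)) - as (s (x 0) (x 4)) (s (x 1) (x 5)) (s (x 2) (x 3)) - as (s (x 0) (x 4)) (s (x 1) (x 3)) (s (x 2) (x 5)) + as (s (x 0) (x 2)) (s (x 1) (x 4)) (s (x 3) (x 5)) - as (s (x 0) (x 2)) (s (x 1) (x 5)) (s (x 3) (x 4)) - as (s (x 0) (x 2)) (s (x 1) (x 3)) (s (x 4) (x 5)) = 0 := by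
  have n := nine h (x 0) (x 2) (x 4) (x 1) (x 3) (x 5)
  have e0 : as (s (x 2) (x 4)) (s (x 0) (x 1)) (s (x 3) (x 5)) = - as (s (x 0) (x 1)) (s (x 2) (x 4)) (s (x 3) (x 5)) := by rw [as_12 h (s (x 2) (x 4)) (s (x 0) (x 1)) (s (x 3) (x 5))]
  rw [e0] at n
  have e1 : as (s (x 2) (x 4)) (s (x 0) (x 3)) (s (x 1) (x 5)) = as (s (x 0) (x 3)) (s (x 1) (x 5)) (s (x 2) (x 4)) := by rw [as_cyc h (s (x 2) (x 4)) (s (x 0) (x 3)) (s (x 1) (x 5))]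
  rw [e1] at n
  have e2 : as (s (x 2) (x 4)) (s (x 0) (x 5)) (s (x 1) (x 3)) = as (s (x 0) (x 5)) (s (x 1) (x 3)) (s (x 2) (x 4)) := by rw [as_cyc h (s (x 2) (x 4)) (s (x 0) (x 5)) (s (x 1) (x 3))]
  rw [e2] at n
  have e3 : as (s (x 0) (x 4)) (s (x 2) (x 1)) (s (x 3) (x 5)) = as (s (x 0) (x 4)) (s (x 1) (x 2)) (s (x 3) (x 5)) := by rw [s_comm (x 2) (x 1)]
  rw [e3] at n
  have e4 : as (s (x 0) (x 4)) (s (x 2) (x 3)) (s (x 1) (x 5)) = - as (s (x 0) (x 4)) (s (x 1) (x 5)) (s (x 2) (x 3)) := by rw [as_23 h (s (x 0) (x 4)) (s (x 2) (x 3)) (s (x 1) (x 5))]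
  rw [e4] at n
  have e5 : as (s (x 0) (x 4)) (s (x 2) (x 5)) (s (x 1) (x 3)) = - as (s (x 0) (x 4)) (s (x 1) (x 3)) (s (x 2) (x 5)) := by rw [as_23 h (s (x 0) (x 4)) (s (x 2) (x 5)) (s (x 1) (x 3))]
  rw [e5] at n
  have e6 : as (s (x 0) (x 2)) (s (x 4) (x 1)) (s (x 3) (x 5)) = as (s (x 0) (x 2)) (s (x 1) (x 4)) (s (x 3) (x 5)) := by rw [s_comm (x 4) (x 1)]
  rw [e6] at n
  have e7 : as (s (x 0) (x 2)) (s (x 4) (x 3)) (s (x 1) (x 5)) = - as (s (x 0) (x 2)) (s (x 1) (x 5)) (s (x 3) (x 4)) := by rw [s_comm (x 4) (x 3), as_23 h (s (x 0) (x 2)) (s (x 3) (x 4)) (s (x 1) (x 5))]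
  rw [e7] at n
  have e8 : as (s (x 0) (x 2)) (s (x 4) (x 5)) (s (x 1) (x 3)) = - as (s (x 0) (x 2)) (s (x 1) (x 3)) (s (x 4) (x 5)) := by rw [as_23 h (s (x 0) (x 2)) (s (x 4) (x 5)) (s (x 1) (x 3))]
  rw [e8] at n
  rw [← n]; abel

theorem R045 : as (s (x 0) (x 1)) (s (x 2) (x 3)) (s (x 4) (x 5)) + as (s (x 0) (x 2)) (s (x 1) (x 3)) (s (x 4) (x 5)) + as (s (x 0) (x 3)) (s (x 1) (x 2)) (s (x 4) (x 5)) + as (s (x 0) (x 5)) (s (x 1) (x 4)) (s (x 2) (x 3)) - as (s (x 0) (x 5)) (s (x 1) (x 3)) (s (x 2) (x 4)) - as (s (x 0) (x 5)) (s (x 1) (x 2)) (s (x 3) (x 4)) + as (s (x 0) (x 4)) (s (x 1) (x 5)) (s (x 2) (x 3)) - as (s (x 0) (x 4)) (s (x 1) (x 3)) (s (x 2) (x 5)) - as (s (x 0) (x 4)) (s (x 1) (x 2)) (s (x 3) (x 5)) = 0 := by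
  have n := nine h (x 0) (x 4) (x 5) (x 1) (x 2) (x 3)
  have e0 : as (s (x 4) (x 5)) (s (x 0) (x 1)) (s (x 2) (x 3)) = as (s (x 0) (x 1)) (s (x 2) (x 3)) (s (x 4) (x 5)) := by rw [as_cyc h (s (x 4) (x 5)) (s (x 0) (x 1)) (s (x 2) (x 3))]
  rw [e0] at n
  have e1 : as (s (x 4) (x 5)) (s (x 0) (x 2)) (s (x 1) (x 3)) = as (s (x 0) (x 2)) (s (x 1) (x 3)) (s (x 4) (x 5)) := by rw [as_cyc h (s (x 4) (x 5)) (s (x 0) (x 2)) (s (x 1) (x 3))]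
  rw [e1] at n
  have e2 : as (s (x 4) (x 5)) (s (x 0) (x 3)) (s (x 1) (x 2)) = as (s (x 0) (x 3)) (s (x 1) (x 2)) (s (x 4) (x 5)) := by rw [as_cyc h (s (x 4) (x 5)) (s (x 0) (x 3)) (s (x 1) (x 2))]
  rw [e2] at n
  have e3 : as (s (x 0) (x 5)) (s (x 4) (x 1)) (s (x 2) (x 3)) = as (s (x 0) (x 5)) (s (x 1) (x 4)) (s (x 2) (x 3)) := by rw [s_comm (x 4) (x 1)]
  rw [e3] at n
  have e4 : as (s (x 0) (x 5)) (s (x 4) (x 2)) (s (x 1) (x 3)) = - as (s (x 0) (x 5)) (s (x 1) (x 3)) (s (x 2) (x 4)) := by rw [s_comm (x 4) (x 2), as_23 h (s (x 0) (x 5)) (s (x 2) (x 4)) (s (x 1) (x 3))]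
  rw [e4] at n
  have e5 : as (s (x 0) (x 5)) (s (x 4) (x 3)) (s (x 1) (x 2)) = - as (s (x 0) (x 5)) (s (x 1) (x 2)) (s (x 3) (x 4)) := by rw [s_comm (x 4) (x 3), as_23 h (s (x 0) (x 5)) (s (x 3) (x 4)) (s (x 1) (x 2))]
  rw [e5] at n
  have e6 : as (s (x 0) (x 4)) (s (x 5) (x 1)) (s (x 2) (x 3)) = as (s (x 0) (x 4)) (s (x 1) (x 5)) (s (x 2) (x 3)) := by rw [s_comm (x 5) (x 1)]
  rw [e6] at n
  have e7 : as (s (x 0) (x 4)) (s (x 5) (x 2)) (s (x 1) (x 3)) = - as (s (x 0) (x 4)) (s (x 1) (x 3)) (s (x 2) (x 5)) := by rw [s_comm (x 5) (x 2), as_23 h (s (x 0) (x 4)) (s (x 2) (x 5)) (s (x 1) (x 3))]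
  rw [e7] at n
  have e8 : as (s (x 0) (x 4)) (s (x 5) (x 3)) (s (x 1) (x 2)) = - as (s (x 0) (x 4)) (s (x 1) (x 2)) (s (x 3) (x 5)) := by rw [s_comm (x 5) (x 3), as_23 h (s (x 0) (x 4)) (s (x 3) (x 5)) (s (x 1) (x 2))]
  rw [e8] at n
  rw [← n]; abel

theorem three_tt : 3 • tt x = 0 := by
  have hR012 := R012 h x
  have hR015 := R015 h x
  have hR024 := R024 h x
  have hR045 := R045 h x
  have e : 3 • tt x = - (- as (s (x 0) (x 3)) (s (x 1) (x 2)) (s (x 4) (x 5)) - as (s (x 0) (x 4)) (s (x 1) (x 2)) (s (x 3) (x 5)) - as (s (x 0) (x 5)) (s (x 1) (x 2)) (s (x 3) (x 4)) + as (s (x 0) (x 2)) (s (x 1) (x 3)) (s (x 4) (x 5)) + as (s (x 0) (x 2)) (s (x 1) (x 4)) (s (x 3) (x 5)) + as (s (x 0) (x 2)) (s (x 1) (x 5)) (s (x 3) (x 4)) + as (s (x 0) (x 1)) (s (x 2) (x 3)) (s (x 4) (x 5)) + as (s (x 0) (x 1)) (s (x 2) (x 4)) (s (x 3)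 (x 5)) + as (s (x 0) (x 1)) (s (x 2) (x 5)) (s (x 3) (x 4))) + (- as (s (x 0) (x 2)) (s (x 1) (x 5)) (s (x 3) (x 4)) - as (s (x 0) (x 3)) (s (x 1) (x 5)) (s (x 2) (x 4)) - as (s (x 0) (x 4)) (s (x 1) (x 5)) (s (x 2) (x 3)) + as (s (x 0) (x 5)) (s (x 1) (x 2)) (s (x 3) (x 4)) + as (s (x 0) (x 5)) (s (x 1) (x 3)) (s (x 2) (x 4)) + as (s (x 0) (x 5)) (s (x 1) (x 4)) (s (x 2) (x 3)) + as (s (x 0) (x 1)) (s (x 2) (x 5)) (s (x 3) (x 4)) - as (s (x 0) (x 1)) (s (x 2) (x 4)) (s (x 3) (x 5)) - as (s (x 0) (x 1)) (s (x 2) (x 3)) (s (x 4) (x 5))) + (- as (s (x 0) (x 1)) (s (x 2) (x 4)) (s (x 3) (x 5)) + as (s (x 0) (x 3)) (s (x 1) (x 5)) (s (x 2) (x 4)) + as (s (x 0) (x 5)) (s (x 1) (x 3)) (s (x 2) (x 4)) + as (s (x 0) (x 4)) (s (x 1) (x 2)) (s (x 3) (x 5)) - as (s (x 0) (x 4)) (s (x 1) (x 5)) (s (x 2) (x 3)) - as (s (x 0) (x 4)) (s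 (x 1) (x 3)) (s (x 2) (x 5)) + as (s (x 0) (x 2)) (s (x 1) (x 4)) (s (x 3) (x 5)) - as (s (x 0) (x 2)) (s (x 1) (x 5)) (s (x 3) (x 4)) - as (s (x 0) (x 2)) (s (x 1) (x 3)) (s (x 4) (x 5))) - (as (s (x 0) (x 1)) (s (x 2) (x 3)) (s (x 4) (x 5)) + as (s (x 0) (x 2)) (s (x 1) (x 3)) (s (x 4) (x 5)) + as (s (x 0) (x 3)) (s (x 1) (x 2)) (s (x 4) (x 5)) + as (s (x 0) (x 5)) (s (x 1) (x 4)) (s (x 2) (x 3)) - as (s (x 0) (x 5)) (s (x 1) (x 3)) (s (x 2) (x 4)) - as (s (x 0) (x 5)) (s (x 1) (x 2)) (s (x 3) (x 4)) + as (s (x 0) (x 4)) (s (x 1) (x 5)) (s (x 2) (x 3)) - as (s (x 0) (x 4)) (s (x 1) (x 3)) (s (x 2) (x 5)) - as (s (x 0) (x 4)) (s (x 1) (x 2)) (s (x 3) (x 5))) := by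
    simp only [tt]
    abel
  rw [e, hR012, hR015, hR024, hR045]
  simp

end identity

/-- the generators of the witness -/
def gx (i : ℕ) : W := if h : i < 6 then sg ⟨2 ^ i, by
  have := Nat.pow_le_pow_right (n := 2) (by norm_num) (Nat.lt_succ_iff.mp h)
  omega⟩ ![1, 0] else 0

/-- first basis vector -/
def e0 : V2 := ![1, 0]

theorem sg_mul_disj (S T : Fin 64) (v w : V2) (h : (S : ℕ) &&& (T : ℕ) = 0) :
    sg S v * sg T w = sg (orF S T) (BB S T v w) := by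
  rw [sg_mul_sg, PP, if_pos h]

theorem sg_sub (S : Fin 64) (v w : V2) : sg S (v - w) = sg S v - sg S w :=
  Pi.single_sub (f := fun _ => V2) S v w

def sv (S T : Fin 64) : V2 := BB S T e0 e0 + BB T S e0 e0

theorem s_sg (S T : Fin 64) (h : (S : ℕ) &&& (T : ℕ) = 0) :
    s (sg S e0) (sg T e0) = sg (orF S T) (sv S T) := by
  have h' : (T : ℕ) &&& (S : ℕ) = 0 := by rw [Nat.land_comm]; exact h
  have e : orF T S = orF S T := by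
    apply Fin.ext
    rw [orF_val, orF_val, Nat.lor_comm]
  rw [s, sg_mul_disj _ _ _ _ h, sg_mul_disj _ _ _ _ h', e, ← sg_add, sv]

def av (S T R : Fin 64) (u v w : V2) : V2 :=
  BB (orF S T) R (BB S T u v) w - BB S (orF T R) u (BB T R v w)

theorem as_sg (S T R : Fin 64) (u v w : V2) (h1 : (S : ℕ) &&& (T : ℕ) = 0)
    (h2 : (S : ℕ) &&& (R : ℕ) = 0) (h3 : (T : ℕ) &&& (R : ℕ) = 0) :
    as (sg S u) (sg T v) (sg R w) = sg (orF (orF S T) R) (av S T R u v w) := by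
  have a1 : ((orF S T : Fin 64) : ℕ) &&& (R : ℕ) = 0 := by
    rw [orF_val, Nat.and_or_distrib_right, h2, h3]; rfl
  have a2 : (S : ℕ) &&& ((orF T R : Fin 64) : ℕ) = 0 := by
    rw [orF_val, Nat.and_or_distrib_left, h1, h2]; rfl
  have e : orF S (orF T R) = orF (orF S T) R := by
    apply Fin.ext
    simp only [orF_val]
    rw [Nat.lor_assoc]
  rw [as, sg_mul_disj _ _ _ _ h1, sg_mul_disj _ _ _ _ a1, sg_mul_disj _ _ _ _ h3,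
    sg_mul_disj _ _ _ _ a2, e, ← sg_sub, av]

/-- all the data of one term of `tt` -/
def tv (i j k l m n : Fin 64) : V2 :=
  av (orF i j) (orF k l) (orF m n) (sv i j) (sv k l) (sv m n)

theorem term_eval (i j k l m n : Fin 64) (v : V2) (h : ((i : ℕ) &&& (j : ℕ) = 0 ∧
    (k : ℕ) &&& (l : ℕ) = 0 ∧ (m : ℕ) &&& (n : ℕ) = 0 ∧
    (orF i j : ℕ) &&& (orF k l : ℕ) = 0 ∧ (orF i j : ℕ) &&& (orF m n : ℕ) = 0 ∧
    (orF k l : ℕ) &&& (orF m n : ℕ) = 0 ∧ orF (orF (orF i j) (orF k l)) (orF m n) = 63) ∧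
    tv i j k l m n = v) :
    as (s (sg i e0) (sg j e0)) (s (sg k e0) (sg l e0)) (s (sg m e0) (sg n e0)) = sg 63 v := by
  obtain ⟨⟨h1, h2, h3, h4, h5, h6, h7⟩, h8⟩ := h
  rw [s_sg _ _ h1, s_sg _ _ h2, s_sg _ _ h3, as_sg _ _ _ _ _ _ h4 h5 h6, h7, ← h8, tv]

theorem gx0 : gx 0 = sg 1 e0 := rfl
theorem gx1 : gx 1 = sg 2 e0 := rfl
theorem gx2 : gx 2 = sg 4 e0 := rfl
theorem gx3 : gx 3 = sg 8 e0 := rfl
theorem gx4 : gx 4 = sg 16 e0 := rfl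
theorem gx5 : gx 5 = sg 32 e0 := rfl

theorem tt_gx : tt gx = sg 63 e0 := by
  have t0 : as (s (sg 1 e0) (sg 16 e0)) (s (sg 2 e0) (sg 4 e0)) (s (sg 8 e0) (sg 32 e0)) =
      sg 63 ![0, 0] := term_eval _ _ _ _ _ _ _ (by decide +kernel)
  have t1 : as (s (sg 1 e0) (sg 32 e0)) (s (sg 2 e0) (sg 4 e0)) (s (sg 8 e0) (sg 16 e0)) =
      sg 63 ![0, 0] := term_eval _ _ _ _ _ _ _ (by decide +kernel)
  have t2 : as (s (sg 1 e0) (sg 32 e0)) (s (sg 2 e0) (sg 8 e0)) (s (sg 4 e0) (sg 16 e0)) =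
      sg 63 ![0, 0] := term_eval _ _ _ _ _ _ _ (by decide +kernel)
  have t3 : as (s (sg 1 e0) (sg 2 e0)) (s (sg 4 e0) (sg 8 e0)) (s (sg 16 e0) (sg 32 e0)) =
      sg 63 ![0, 0] := term_eval _ _ _ _ _ _ _ (by decide +kernel)
  have t4 : as (s (sg 1 e0) (sg 2 e0)) (s (sg 4 e0) (sg 16 e0)) (s (sg 8 e0) (sg 32 e0)) =
      sg 63 ![0, 0] := term_eval _ _ _ _ _ _ _ (by decide +kernel)
  have t5 : as (s (sg 1 e0) (sg 4 e0)) (s (sg 2 e0) (sg 8 e0)) (s (sg 16 e0) (sg 32 e0)) =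
      sg 63 ![0, 0] := term_eval _ _ _ _ _ _ _ (by decide +kernel)
  have t6 : as (s (sg 1 e0) (sg 4 e0)) (s (sg 2 e0) (sg 32 e0)) (s (sg 8 e0) (sg 16 e0)) =
      sg 63 ![1, 0] := term_eval _ _ _ _ _ _ _ (by decide +kernel)
  have t7 : as (s (sg 1 e0) (sg 16 e0)) (s (sg 2 e0) (sg 32 e0)) (s (sg 4 e0) (sg 8 e0)) =
      sg 63 ![1, 0] := term_eval _ _ _ _ _ _ _ (by decide +kernel)
  unfold tt
  rw [gx0, gx1, gx2, gx3, gx4, gx5, t0, t1, t2, t3, t4, t5, t6, t7]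
  simp only [← sg_add, ← sg_sub]
  have e : (![0, 0] + ![0, 0] + ![0, 0] -
      (![0, 0] + ![0, 0] + ![0, 0] + ![1, 0] + ![1, 0]) : V2) = e0 := by decide +kernel
  rw [e]

theorem tt_gx_ne : tt gx ≠ 0 := by
  intro h0
  rw [tt_gx] at h0
  have := congrFun (congrFun h0 63) 0
  rw [sg_same] at this
  exact absurd this (by decide)

end Pool.Agent.Y80.Tor
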