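import Pool.Agent.Y80.Tor.Element

set_option autoImplicit false

namespace Pool.Agent.Y80.Tor

theorem isAlt_free (X : Type*) : IsAlt (FreeAltRing X) := by
  constructor
  · intro a b
    induction a using Quotient.inductionOn with
    | _ a =>
      induction b using Quotient.inductionOn with
      | _ b =>
        exact (RingCon.eq _).mpr (RingCon.le_ringConGen _ _ ⟨a, b, Or.inl ⟨rfl, rfl⟩⟩)
  · intro a b
    induction a using Quotient.inductionOn with
    | _ a =>
      induction b using Quotient.inductionOn with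
      | _ b =>
        exact (RingCon.eq _).mpr (RingCon.le_ringConGen _ _ ⟨a, b, Or.inr ⟨rfl, rfl⟩⟩)

/-- the kernel congruence of a ring homomorphism -/
def kerCon {A B : Type*} [NonUnitalNonAssocRing A] [NonUnitalNonAssocRing B] (φ : A →ₙ+* B) :
    RingCon A where
  r x y := φ x = φ y
  iseqv := ⟨fun _ => rfl, fun h => h.symm, fun h h' => h.trans h'⟩
  mul' h h' := by
    simp only [map_mul] at *
    rw [h, h']
  add' h h' := by
    simp only [map_add] at *
    rw [h, h']

theorem altCon_le {X : Type*} {B : Type*} [NonUnitalNonAssocRing B] (hB : IsAlt B)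
    (φ : FreeNonUnitalNonAssocAlgebra ℤ X →ₙ+* B) : altCon X ≤ kerCon φ := by
  rw [altCon, RingCon.ringConGen_le]
  intro u v
  rintro ⟨a, b, ⟨rfl, rfl⟩ | ⟨rfl, rfl⟩⟩
  · change φ _ = φ _
    simp only [map_mul]
    exact hB.left _ _
  · change φ _ = φ _
    simp only [map_mul]
    exact hB.right _ _

theorem map_tt {A B : Type*} [NonUnitalNonAssocRing A] [NonUnitalNonAssocRing B]
    (φ : A →ₙ+* B) (x : ℕ → A) : φ (tt x) = tt (fun i => φ (x i)) := by
  simp only [tt, as, s, map_add, map_sub, map_mul]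

theorem coe_tt {X : Type*} (x : ℕ → FreeNonUnitalNonAssocAlgebra ℤ X) :
    ((tt x : FreeNonUnitalNonAssocAlgebra ℤ X) : FreeAltRing X) =
      tt (fun i => ((x i : FreeNonUnitalNonAssocAlgebra ℤ X) : FreeAltRing X)) := by
  simp only [tt, as, s, RingCon.coe_add, RingCon.coe_sub, RingCon.coe_mul]

variable {X : Type*} (ι : Fin 6 ↪ X)

/-- the six generators -/
noncomputable def xx (i : ℕ) : FreeNonUnitalNonAssocAlgebra ℤ X :=
  FreeNonUnitalNonAssocAlgebra.of ℤ (ι (Fin.ofNat 6 i))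

noncomputable def toW : FreeNonUnitalNonAssocAlgebra ℤ X →ₙₐ[ℤ] W :=
  FreeNonUnitalNonAssocAlgebra.lift ℤ (Function.extend ι (fun i : Fin 6 => gx i) 0)

theorem toW_xx (i : Fin 6) : toW ι (xx ι i) = gx i := by
  rw [xx, toW, FreeNonUnitalNonAssocAlgebra.lift_of_apply, ι.injective.extend_apply]
  congr 1
  exact Nat.mod_eq_of_lt i.2

theorem toW_tt : toW ι (tt (xx ι)) = tt gx := by
  have h := map_tt (toW ι : FreeNonUnitalNonAssocAlgebra ℤ X →ₙ+* W) (xx ι)
  have e : ∀ i : Fin 6, (toW ι : FreeNonUnitalNonAssocAlgebra ℤ X →ₙ+* W) (xx ι i) = gx i :=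
    toW_xx ι
  have e0 := e 0
  have e1 := e 1
  have e2 := e 2
  have e3 := e 3
  have e4 := e 4
  have e5 := e 5
  refine h.trans ?_
  unfold tt
  beta_reduce
  simp only [Fin.coe_ofNat_eq_mod, Nat.zero_mod, Nat.reduceMod] at e0 e1 e2 e3 e4 e5
  rw [e0, e1, e2, e3, e4, e5]

include ι in
theorem exists_torsion : ∃ f : FreeAltRing X, f ≠ 0 ∧ 3 • f = 0 := by
  refine ⟨tt (fun i => ((xx ι i : FreeNonUnitalNonAssocAlgebra ℤ X) : FreeAltRing X)), ?_,
    three_tt (isAlt_free X) _⟩
  rw [← coe_tt]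
  intro h0
  have h1 : altCon X (tt (xx ι)) 0 := (RingCon.eq _).mp h0
  have h2 := altCon_le W_alt (toW ι : FreeNonUnitalNonAssocAlgebra ℤ X →ₙ+* W) h1
  have h3 : toW ι (tt (xx ι)) = toW ι 0 := h2
  rw [toW_tt, map_zero] at h3
  exact tt_gx_ne h3

theorem not_free_of_three {M : Type*} [AddCommGroup M] (f : M) (h0 : f ≠ 0)
    (h3 : f + f + f = 0) : ¬ Module.Free ℤ M := by
  intro hf
  apply h0
  have : (3 : ℤ) • f = 0 := by
    rw [← h3]
    module
  exact (smul_eq_zero.mp this).resolve_left (by norm_num)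

include ι in
theorem not_free : ¬ Module.Free ℤ (FreeAltRing X) := by
  obtain ⟨f, h0, h3⟩ := exists_torsion ι
  refine not_free_of_three f h0 ?_
  rw [← h3]
  rw [show (3 : ℕ) = 2 + 1 from rfl, succ_nsmul, two_nsmul]

include ι in
theorem exists_order_three : ∃ f : FreeAltRing X, addOrderOf f = 3 := by
  obtain ⟨f, h0, h3⟩ := exists_torsion ι
  haveI : Fact (Nat.Prime 3) := ⟨Nat.prime_three⟩
  exact ⟨f, addOrderOf_eq_prime h3 h0⟩

end Pool.Agent.Y80.Tor
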