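import Pool.Agent.Y80.Tor.Table
import Pool.Agent.Y80.Tor.Artin

set_option autoImplicit false

namespace Pool.Agent.Y80.Tor

abbrev V2 := Fin 2 → ZMod 3

/-- the witness: a commutative alternative ring of characteristic three -/
def W := Fin 64 → V2

instance : AddCommGroup W := inferInstanceAs (AddCommGroup (Fin 64 → V2))

def orF (S T : Fin 64) : Fin 64 :=
  ⟨(S : ℕ) ||| (T : ℕ), Nat.or_lt_two_pow (n := 6) S.2 T.2⟩

theorem orF_val (S T : Fin 64) : (orF S T : ℕ) = (S : ℕ) ||| (T : ℕ) := rfl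

def BB (S T : Fin 64) (v w : V2) : V2 := fun d =>
  ∑ a : Fin 2, ∑ b : Fin 2, ((mm S T a b d : ℕ) : ZMod 3) * (v a * w b)

theorem BB_add_left (S T : Fin 64) (v v' w : V2) : BB S T (v + v') w = BB S T v w + BB S T v' w := by
  funext d
  simp only [BB, Pi.add_apply, Fin.sum_univ_two]
  ring

theorem BB_add_right (S T : Fin 64) (v w w' : V2) :
    BB S T v (w + w') = BB S T v w + BB S T v w' := by
  funext d
  simp only [BB, Pi.add_apply, Fin.sum_univ_two]
  ring

def sg (S : Fin 64) (v : V2) : W := Pi.single (M := fun _ => V2) S v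

theorem sg_add (S : Fin 64) (v w : V2) : sg S (v + w) = sg S v + sg S w :=
  Pi.single_add (f := fun _ => V2) S v w

theorem sg_zero (S : Fin 64) : sg S 0 = 0 := Pi.single_zero (M := fun _ => V2) S

def PP (S T : Fin 64) (v w : V2) : W :=
  if (S : ℕ) &&& (T : ℕ) = 0 then sg (orF S T) (BB S T v w) else 0

theorem PP_add_left (S T : Fin 64) (v v' w : V2) : PP S T (v + v') w = PP S T v w + PP S T v' w := by
  unfold PP
  split_ifs
  · rw [BB_add_left, sg_add]
  · simp

theorem PP_add_right (S T : Fin 64) (v w w' : V2) :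
    PP S T v (w + w') = PP S T v w + PP S T v w' := by
  unfold PP
  split_ifs
  · rw [BB_add_right, sg_add]
  · simp

theorem PP_zero_left (S T : Fin 64) (w : V2) : PP S T 0 w = 0 := by
  have := PP_add_left S T 0 0 w
  rw [add_zero] at this
  exact left_eq_add.mp this

theorem PP_zero_right (S T : Fin 64) (v : V2) : PP S T v 0 = 0 := by
  have := PP_add_right S T v 0 0
  rw [add_zero] at this
  exact left_eq_add.mp this

instance : Mul W := ⟨fun f g => ∑ S : Fin 64, ∑ T : Fin 64, PP S T (f S) (g T)⟩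

theorem mul_def (f g : W) : f * g = ∑ S : Fin 64, ∑ T : Fin 64, PP S T (f S) (g T) := rfl

theorem W_add_apply (f g : W) (S : Fin 64) : (f + g) S = f S + g S := rfl

theorem W_zero_apply (S : Fin 64) : (0 : W) S = 0 := rfl

instance : NonUnitalNonAssocRing W where
  left_distrib f g h := by
    simp only [mul_def, W_add_apply, PP_add_right, Finset.sum_add_distrib]
  right_distrib f g h := by
    simp only [mul_def, W_add_apply, PP_add_left, Finset.sum_add_distrib]
  zero_mul f := by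
    simp only [mul_def, W_zero_apply, PP_zero_left, Finset.sum_const_zero]
  mul_zero f := by
    simp only [mul_def, W_zero_apply, PP_zero_right, Finset.sum_const_zero]

theorem sg_same (S : Fin 64) (v : V2) : sg S v S = v := Pi.single_eq_same (M := fun _ => V2) S v

theorem sg_ne {S T : Fin 64} (h : T ≠ S) (v : V2) : sg S v T = 0 :=
  Pi.single_eq_of_ne (M := fun _ => V2) h v

theorem sg_mul_sg (S T : Fin 64) (v w : V2) : sg S v * sg T w = PP S T v w := by
  rw [mul_def, Finset.sum_eq_single S, Finset.sum_eq_single T, sg_same, sg_same]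
  · intro R _ hR
    rw [sg_ne hR, PP_zero_right]
  · simp
  · intro R _ hR
    rw [sg_ne hR]
    simp only [PP_zero_left, Finset.sum_const_zero]
  · simp

theorem PP_comm (S T : Fin 64) (v w : V2) : PP S T v w = PP T S w v := by
  unfold PP
  rw [Nat.land_comm (T : ℕ) S]
  split_ifs with h
  · have e : orF T S = orF S T := by
      apply Fin.ext
      rw [orF_val, orF_val, Nat.lor_comm]
    rw [e]
    congr 1
    funext d
    simp only [BB, Fin.sum_univ_two]
    rw [comm_check S T h 0 0 d, comm_check S T h 0 1 d, comm_check S T h 1 0 d,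
      comm_check S T h 1 1 d]
    ring
  · rfl

theorem W_comm (f g : W) : f * g = g * f := by
  rw [mul_def, mul_def, Finset.sum_comm]
  exact Finset.sum_congr rfl fun S _ => Finset.sum_congr rfl fun T _ => PP_comm _ _ _ _

/-- Jacobi sum -/
def J (f g h : W) : W := (f * g) * h + (g * h) * f + (h * f) * g

theorem J_cyc (f g h : W) : J f g h = J g h f := by simp only [J]; abel

theorem J_add (f f' g h : W) : J (f + f') g h = J f g h + J f' g h := by
  simp only [J, add_mul, mul_add]; abel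

theorem J_zero (g h : W) : J 0 g h = 0 := by simp [J]

theorem J_ext (g h : W) (H : ∀ S v, J (sg S v) g h = 0) (f : W) : J f g h = 0 := by
  have e : f = ∑ S : Fin 64, sg S (f S) :=
    (Finset.univ_sum_single (M := fun _ => V2) f).symm
  have key : ∀ s : Finset (Fin 64), J (∑ S ∈ s, sg S (f S)) g h = 0 := by
    intro s
    induction s using Finset.induction_on with
    | empty => simp [J_zero]
    | insert a s ha ih => rw [Finset.sum_insert ha, J_add, H, ih, add_zero]
  rw [e]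
  exact key _

theorem jac_coeff (S T R : Fin 64) (h1 : (S : ℕ) &&& (T : ℕ) = 0)
    (h2 : ((S : ℕ) ||| (T : ℕ)) &&& (R : ℕ) = 0) (a b c d : Fin 2) :
    (((mm S T a b (0 : Fin 2) : ℕ) : ZMod 3) * ((mm (orF S T) R (0 : Fin 2) c d : ℕ) : ZMod 3) +
      ((mm S T a b (1 : Fin 2) : ℕ) : ZMod 3) * ((mm (orF S T) R (1 : Fin 2) c d : ℕ) : ZMod 3)) +
    (((mm T R b c (0 : Fin 2) : ℕ) : ZMod 3) * ((mm (orF T R) S (0 : Fin 2) a d : ℕ) : ZMod 3) +
      ((mm T R b c (1 : Fin 2) : ℕ) : ZMod 3) * ((mm (orF T R) S (1 : Fin 2) a d : ℕ) : ZMod 3)) +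
    (((mm R S c a (0 : Fin 2) : ℕ) : ZMod 3) * ((mm (orF R S) T (0 : Fin 2) b d : ℕ) : ZMod 3) +
      ((mm R S c a (1 : Fin 2) : ℕ) : ZMod 3) * ((mm (orF R S) T (1 : Fin 2) b d : ℕ) : ZMod 3))
      = 0 := by
  have h := jac_check S T h1 R h2 a b c d
  unfold jac at h
  have h' := (ZMod.natCast_eq_zero_iff _ 3).mpr (Nat.dvd_of_mod_eq_zero h)
  push_cast at h'
  simp only [orF_val]
  exact h'

theorem disj_iff (S T R : Fin 64) : ((S : ℕ) &&& (T : ℕ) = 0 ∧
    ((S : ℕ) ||| (T : ℕ)) &&& (R : ℕ) = 0) ↔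
    ((S : ℕ) &&& (T : ℕ) = 0 ∧ (S : ℕ) &&& (R : ℕ) = 0 ∧ (T : ℕ) &&& (R : ℕ) = 0) := by
  rw [Nat.and_or_distrib_right, Nat.or_eq_zero_iff]

theorem sg_mul3 (S T R : Fin 64) (v w u : V2) : (sg S v * sg T w) * sg R u =
    if (S : ℕ) &&& (T : ℕ) = 0 ∧ ((S : ℕ) ||| (T : ℕ)) &&& (R : ℕ) = 0 then
      sg (orF (orF S T) R) (BB (orF S T) R (BB S T v w) u) else 0 := by
  rw [sg_mul_sg, PP]
  by_cases h1 : (S : ℕ) &&& (T : ℕ) = 0
  · rw [if_pos h1, sg_mul_sg, PP, orF_val]
    by_cases h2 : ((S : ℕ) ||| (T : ℕ)) &&& (R : ℕ) = 0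
    · rw [if_pos h2, if_pos ⟨h1, h2⟩]
    · rw [if_neg h2, if_neg (fun h => h2 h.2)]
  · rw [if_neg h1, if_neg (fun h => h1 h.1), zero_mul]

theorem J_sg (S T R : Fin 64) (v w u : V2) : J (sg S v) (sg T w) (sg R u) = 0 := by
  rw [J, sg_mul3, sg_mul3, sg_mul3]
  by_cases h : (S : ℕ) &&& (T : ℕ) = 0 ∧ ((S : ℕ) ||| (T : ℕ)) &&& (R : ℕ) = 0
  · have hh := (disj_iff S T R).mp h
    have h2 : (T : ℕ) &&& (R : ℕ) = 0 ∧ ((T : ℕ) ||| (R : ℕ)) &&& (S : ℕ) = 0 := by
      rw [disj_iff]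
      refine ⟨hh.2.2, ?_, ?_⟩
      · rw [Nat.land_comm]; exact hh.1
      · rw [Nat.land_comm]; exact hh.2.1
    have h3 : (R : ℕ) &&& (S : ℕ) = 0 ∧ ((R : ℕ) ||| (S : ℕ)) &&& (T : ℕ) = 0 := by
      rw [disj_iff]
      refine ⟨?_, ?_, hh.1⟩
      · rw [Nat.land_comm]; exact hh.2.1
      · rw [Nat.land_comm]; exact hh.2.2
    rw [if_pos h, if_pos h2, if_pos h3]
    have e1 : orF (orF T R) S = orF (orF S T) R := by
      apply Fin.ext
      simp only [orF_val]
      rw [Nat.lor_comm, ← Nat.lor_assoc]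
    have e2 : orF (orF R S) T = orF (orF S T) R := by
      apply Fin.ext
      simp only [orF_val]
      rw [Nat.lor_assoc, Nat.lor_comm]
    rw [e1, e2, ← sg_add, ← sg_add]
    have : BB (orF S T) R (BB S T v w) u + BB (orF T R) S (BB T R w u) v +
        BB (orF R S) T (BB R S u v) w = 0 := by
      funext d
      simp only [BB, Pi.add_apply, Pi.zero_apply, Fin.sum_univ_two]
      have k := jac_coeff S T R h.1 h.2
      linear_combination (v 0 * w 0 * u 0) * k 0 0 0 d + (v 0 * w 0 * u 1) * k 0 0 1 d +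
        (v 0 * w 1 * u 0) * k 0 1 0 d + (v 0 * w 1 * u 1) * k 0 1 1 d +
        (v 1 * w 0 * u 0) * k 1 0 0 d + (v 1 * w 0 * u 1) * k 1 0 1 d +
        (v 1 * w 1 * u 0) * k 1 1 0 d + (v 1 * w 1 * u 1) * k 1 1 1 d
    rw [this, sg_zero]
  · have hh := fun h' => h ((disj_iff S T R).mpr h')
    have h2 : ¬ ((T : ℕ) &&& (R : ℕ) = 0 ∧ ((T : ℕ) ||| (R : ℕ)) &&& (S : ℕ) = 0) := by
      rw [disj_iff]
      rintro ⟨a, b, c⟩
      exact hh ⟨by rw [Nat.land_comm]; exact b, by rw [Nat.land_comm]; exact c, a⟩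
    have h3 : ¬ ((R : ℕ) &&& (S : ℕ) = 0 ∧ ((R : ℕ) ||| (S : ℕ)) &&& (T : ℕ) = 0) := by
      rw [disj_iff]
      rintro ⟨a, b, c⟩
      exact hh ⟨c, by rw [Nat.land_comm]; exact a, by rw [Nat.land_comm]; exact b⟩
    rw [if_neg h, if_neg h2, if_neg h3]
    simp

theorem J_all (f g h : W) : J f g h = 0 := by
  apply J_ext
  intro S v
  rw [J_cyc]
  apply J_ext
  intro T w
  rw [J_cyc]
  apply J_ext
  intro R u
  rw [J_cyc]
  rw [J_cyc, J_cyc]
  exact J_sg _ _ _ _ _ _

theorem W_three (f : W) : f + f + f = 0 := by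
  funext S a
  change f S a + f S a + f S a = 0
  have : (3 : ZMod 3) = 0 := rfl
  linear_combination (f S a) * this

theorem W_alt : IsAlt W := by
  have key : ∀ a b : W, (a * a) * b = a * (a * b) := by
    intro a b
    have h1 := J_all a a b
    rw [J, W_comm (a * b) a, W_comm b a, W_comm (a * b) a] at h1
    have h3 := W_three (a * (a * b))
    have : a * a * b = (a * a * b + a * (a * b) + a * (a * b)) -
      (a * (a * b) + a * (a * b) + a * (a * b)) + a * (a * b) := by abel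
    rw [this, h1, h3]
    abel
  refine ⟨key, fun a b => ?_⟩
  rw [W_comm (b * a) a, W_comm b a, W_comm b (a * a)]
  exact (key a b).symm

end Pool.Agent.Y80.Tor
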